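import Pool.Agent.FFG.A1.Two

/-!
# The ordered partition into cells
-/

open Finset
open scoped InnerProductSpace

set_option autoImplicit false
set_option linter.unusedSectionVars false
set_option linter.unusedVariables false

namespace Pool.Agent.FFG.A1

open Pool.Agent.PEPS953 Pool.Agent.FFG Pool.Agent.FFG.HE Pool.Agent.FFG.HPlain Pool.Agent.FFG.APlain

open Pool.Agent.FFG.EPlain (glue rdm rdm_isHermitian boxAt IsDecomp condSum entropy SmallCondSum)

/-- The cut points. -/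
structure Cuts (L R q : ℕ) (x : ℕ → ℕ) : Prop where
  three : 3 ≤ q
  zero : x 0 = 0
  last : x q = L
  lt : ∀ i < q, x i < x (i + 1)
  le : ∀ i < q, x (i + 1) ≤ x i + R

/-- The place of number `k`. -/
def pl (q k : ℕ) : ℕ × ℕ := (k % q, k / q)

/-- `p'` comes before `p`. -/
def Bef (p' p : ℕ × ℕ) : Prop := p'.2 < p.2 ∨ (p'.2 = p.2 ∧ p'.1 < p.1)

/-- The arc of the earlier neighbours (`l = 0` at the four corners). -/
def sl (q : ℕ) (p : ℕ × ℕ) : ℕ × ℕ :=
  if p.2 = 0 then (if 1 ≤ p.1 ∧ p.1 + 1 < q then (4, 1) else (0, 0))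
  else if p.2 + 1 = q then (if 1 ≤ p.1 ∧ p.1 + 1 < q then (1, 7) else (0, 0))
  else (if p.1 = 0 then (5, 3) else if p.1 + 1 = q then (4, 5) else (4, 4))

lemma sl_lt (q : ℕ) (p : ℕ × ℕ) : (sl q p).2 < 8 := by
  unfold sl
  split_ifs <;> simp

lemma sl_par (q : ℕ) (p : ℕ × ℕ) : ((sl q p).2 = 1 → (sl q p).1 % 2 = 0) ∧
    ((sl q p).2 = 7 → (sl q p).1 % 2 = 1) := by
  unfold sl
  split_ifs <;> simp

lemma nbr_spec (q : ℕ) (p : ℕ × ℕ) (t : ℕ) :
    ((nbr q p t).1 = p.1 ∨ (nbr q p t).1 = nxt q p.1 ∨ (nbr q p t).1 = prv q p.1) ∧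
    ((nbr q p t).2 = p.2 ∨ (nbr q p t).2 = nxt q p.2 ∨ (nbr q p t).2 = prv q p.2) := by
  unfold nbr
  split <;> simp

lemma nbr_lt {q : ℕ} (hq : 0 < q) {p : ℕ × ℕ} (h1 : p.1 < q) (h2 : p.2 < q) (t : ℕ) :
    (nbr q p t).1 < q ∧ (nbr q p t).2 < q := by
  obtain ⟨h, h'⟩ := nbr_spec q p t
  have e1 : ∀ i < q, nxt q i < q := by
    intro i hi
    unfold nxt
    split_ifs <;> omega
  have e2 : ∀ i < q, prv q i < q := by
    intro i hi
    unfold prv
    split_ifs <;> omega
  constructor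
  · rcases h with h | h | h
    · rw [h]; exact h1
    · rw [h]; exact e1 _ h1
    · rw [h]; exact e2 _ h1
  · rcases h' with h | h | h
    · rw [h]; exact h2
    · rw [h]; exact e1 _ h2
    · rw [h]; exact e2 _ h2

lemma past {q : ℕ} (hq : 3 ≤ q) {p : ℕ × ℕ} (h1 : p.1 < q) (h2 : p.2 < q) {t : ℕ}
    (ht : t < (sl q p).2) : Bef (nbr q p ((sl q p).1 + t)) p := by
  obtain ⟨i, j⟩ := p
  simp only at h1 h2
  unfold sl at ht ⊢
  simp only at ht ⊢
  split_ifs at ht ⊢ <;> simp only at ht ⊢ <;> first | omega | skip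
  all_goals (interval_cases t <;> simp [nbr, Bef, nxt, prv] <;> (try split_ifs) <;> omega)

lemma future {q : ℕ} (hq : 3 ≤ q) {p : ℕ × ℕ} (h1 : p.1 < q) (h2 : p.2 < q) {t : ℕ}
    (h0 : 0 < (sl q p).2) (ht : t < 8 - (sl q p).2) :
    Bef p (nbr q p ((sl q p).1 + (sl q p).2 + t)) := by
  obtain ⟨i, j⟩ := p
  simp only at h1 h2
  unfold sl at ht h0 ⊢
  simp only at ht h0 ⊢
  split_ifs at ht h0 ⊢ <;> simp only at ht h0 ⊢ <;> first | omega | skip
  all_goals (interval_cases t <;> simp [nbr, Bef, nxt, prv] <;> (try split_ifs) <;> omega)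

lemma Cuts.mono {L R q : ℕ} {x : ℕ → ℕ} (H : Cuts L R q x) :
    ∀ {i j : ℕ}, i ≤ j → j ≤ q → x i ≤ x j := by
  intro i j hij hj
  induction j, hij using Nat.le_induction with
  | base => exact le_rfl
  | succ j hij ih => exact (ih (by omega)).trans (H.lt j (by omega)).le

lemma Cuts.lt_of_lt {L R q : ℕ} {x : ℕ → ℕ} (H : Cuts L R q x) {i j : ℕ} (hij : i < j)
    (hj : j ≤ q) : x i < x j :=
  (H.lt i (by omega)).trans_le (H.mono (by omega) hj)

lemma Cuts.ge {L R q : ℕ} {x : ℕ → ℕ} (H : Cuts L R q x) : ∀ {i : ℕ}, i ≤ q → i ≤ x i := by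
  intro i
  induction i with
  | zero => intro _; exact Nat.zero_le _
  | succ i ih =>
    intro hi
    have h1 := ih (by omega)
    have h2 := H.lt i (by omega)
    omega

lemma Cuts.q_le {L R q : ℕ} {x : ℕ → ℕ} (H : Cuts L R q x) : q ≤ L := by
  have := H.ge (le_refl q)
  rw [H.last] at this
  exact this

lemma Cuts.R_pos {L R q : ℕ} {x : ℕ → ℕ} (H : Cuts L R q x) : 0 < R := by
  have h3 := H.three
  have h1 := H.lt 0 (by omega)
  have h2 := H.le 0 (by omega)
  omega

lemma Cuts.exists_cell {L R q : ℕ} {x : ℕ → ℕ} (H : Cuts L R q x) {a : ℕ} (ha : a < L) :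
    ∃ i < q, x i ≤ a ∧ a < x (i + 1) := by
  by_contra hcon
  push Not at hcon
  have key : ∀ i ≤ q, x i ≤ a := by
    intro i
    induction i with
    | zero => intro _; rw [H.zero]; exact Nat.zero_le _
    | succ i ih =>
      intro hi
      exact hcon i (by omega) (ih (by omega))
  have := key q le_rfl
  rw [H.last] at this
  omega

lemma Cuts.unique {L R q : ℕ} {x : ℕ → ℕ} (H : Cuts L R q x) {a i j : ℕ} (hi : i < q) (hj : j < q)
    (h1 : x i ≤ a) (h2 : a < x (i + 1)) (h3 : x j ≤ a) (h4 : a < x (j + 1)) : i = j := by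
  rcases Nat.lt_trichotomy i j with h | h | h
  · have := H.mono (i := i + 1) (j := j) (by omega) (by omega)
    omega
  · exact h
  · have := H.mono (i := j + 1) (j := i) (by omega) (by omega)
    omega

lemma coord {L R q : ℕ} [NeZero L] {x : ℕ → ℕ} (H : Cuts L R q x) {i i' : ℕ} (hi : i < q)
    (hi' : i' = i ∨ i' = nxt q i ∨ i' = prv q i) {a : ZMod L} (h1 : x i' ≤ a.val)
    (h2 : a.val < x (i' + 1)) : ∃ p < 3 * R, (x (prv q i) : ZMod L) + (p : ℕ) = a := by
  have h3 := H.three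
  have hR := H.R_pos
  have haL : a.val < L := ZMod.val_lt a
  have hcast : ((a.val : ℕ) : ZMod L) = a := ZMod.natCast_zmod_val a
  have step : ∀ j, j < q → x (j + 1) ≤ x j + R := H.le
  -- it is enough to find `p` with one of two equalities of natural numbers
  have key : ∀ b : ℕ, b ≤ L → (∃ p < 3 * R, b + p = a.val ∨ b + p = L + a.val) →
      ∃ p < 3 * R, (b : ZMod L) + (p : ℕ) = a := by
    rintro b hb ⟨p, hp, h | h⟩
    · refine ⟨p, hp, ?_⟩
      rw [← Nat.cast_add, h, hcast]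
    · refine ⟨p, hp, ?_⟩
      rw [← Nat.cast_add, h, Nat.cast_add, hcast, ZMod.natCast_self, zero_add]
  have hprv : prv q i < q := by
    unfold prv
    split_ifs <;> omega
  refine key (x (prv q i)) ?_ ?_
  · have := H.mono (i := prv q i) (j := q) (by omega) le_rfl
    rw [H.last] at this
    exact this
  have z := H.zero
  have la := H.last
  have s0 := step 0 (by omega)
  have s1 := step 1 (by omega)
  have sq1 := step (q - 1) (by omega)
  have sq2 := step (q - 2) (by omega)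
  have e1 : q - 1 + 1 = q := by omega
  have e2 : q - 2 + 1 = q - 1 := by omega
  rw [e1] at sq1
  rw [e2] at sq2
  have m1 := H.mono (i := q - 1) (j := q) (by omega) le_rfl
  have m2 := H.mono (i := 2) (j := q - 1) (by omega) (by omega)
  have m3 := H.mono (i := 1) (j := q - 2) (by omega) (by omega)
  have m4 := H.mono (i := q - 2) (j := q - 1) (by omega) (by omega)
  norm_num at s0 s1
  unfold nxt prv at hi'
  unfold prv
  by_cases hi0 : i = 0
  · subst hi0
    simp only [if_true] at hi' ⊢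
    rw [if_pos (by omega)] at hi'
    norm_num at hi'
    rcases hi' with h | h | h
    · subst h
      norm_num at h1 h2
      exact ⟨L - x (q - 1) + a.val, by omega, by omega⟩
    · subst h
      norm_num at h1 h2
      exact ⟨L - x (q - 1) + a.val, by omega, by omega⟩
    · rw [h] at h1 h2
      rw [e1] at h2
      exact ⟨a.val - x (q - 1), by omega, by omega⟩
  · simp only [if_neg hi0] at hi' ⊢
    obtain ⟨i, rfl⟩ : ∃ i₀, i = i₀ + 1 := ⟨i - 1, by omega⟩
    have e3 : i + 1 - 1 = i := by omega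
    rw [e3] at hi' ⊢
    have si := step i (by omega)
    have si1 := step (i + 1) (by omega)
    have mi := H.mono (i := i) (j := i + 1) (by omega) (by omega)
    by_cases hlast : i + 1 + 1 < q
    · rw [if_pos hlast] at hi'
      have si2 := step (i + 1 + 1) (by omega)
      have mi2 := H.mono (i := i + 1) (j := i + 1 + 1) (by omega) (by omega)
      rcases hi' with h | h | h
      · subst h
        exact ⟨a.val - x i, by omega, by omega⟩
      · subst h
        exact ⟨a.val - x i, by omega, by omega⟩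
      · subst h
        exact ⟨a.val - x i', by omega, by omega⟩
    · rw [if_neg hlast] at hi'
      have hq2 : i = q - 2 := by omega
      rcases hi' with h | h | h
      · subst h
        exact ⟨a.val - x i, by omega, by omega⟩
      · subst h
        norm_num at h1 h2
        subst hq2
        exact ⟨L - x (q - 2) + a.val, by omega, by omega⟩
      · subst h
        exact ⟨a.val - x i', by omega, by omega⟩

variable {L : ℕ} [NeZero L] {R q : ℕ} {x : ℕ → ℕ}

lemma mem_cell {p : ℕ × ℕ} {v : Site L} : v ∈ cell L x p ↔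
    (x p.1 ≤ v.1.val ∧ v.1.val < x (p.1 + 1)) ∧ (x p.2 ≤ v.2.val ∧ v.2.val < x (p.2 + 1)) := by
  unfold cell
  simp

/-- The earlier neighbours. -/
def Bk (L : ℕ) [NeZero L] (x : ℕ → ℕ) (q k : ℕ) : Finset (Site L) :=
  arc L x q (pl q k) (sl q (pl q k)).1 (sl q (pl q k)).2

/-- The later neighbours. -/
def Dk (L : ℕ) [NeZero L] (x : ℕ → ℕ) (q k : ℕ) : Finset (Site L) :=
  if (sl q (pl q k)).2 = 0 then ∅ else
    arc L x q (pl q k) ((sl q (pl q k)).1 + (sl q (pl q k)).2) (8 - (sl q (pl q k)).2)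

/-- The corner of the box. -/
def ck (L : ℕ) [NeZero L] (x : ℕ → ℕ) (q k : ℕ) : Site L :=
  ((x (prv q (k % q)) : ZMod L), (x (prv q (k / q)) : ZMod L))

lemma pl_lt {q k : ℕ} (hq : 0 < q) (hk : k < q * q) : (pl q k).1 < q ∧ (pl q k).2 < q :=
  ⟨Nat.mod_lt _ hq, Nat.div_lt_of_lt_mul hk⟩

/-- The number of a place. -/
lemma pl_num {q : ℕ} (p : ℕ × ℕ) (h1 : p.1 < q) (h2 : p.2 < q) :
    p.1 + q * p.2 < q * q ∧ pl q (p.1 + q * p.2) = p := by
  have hq : 0 < q := by omega
  constructor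
  · calc p.1 + q * p.2 < q + q * p.2 := by omega
      _ = q * (p.2 + 1) := by ring
      _ ≤ q * q := Nat.mul_le_mul_left _ (by omega)
  · unfold pl
    refine Prod.ext ?_ ?_
    · simp only [Nat.add_mul_mod_self_left]
      exact Nat.mod_eq_of_lt h1
    · simp only [Nat.add_mul_div_left _ _ hq]
      rw [Nat.div_eq_of_lt h1, zero_add]

lemma num_pl {q : ℕ} (k : ℕ) : (pl q k).1 + q * (pl q k).2 = k := Nat.mod_add_div k q

lemma num_lt {q : ℕ} {p' p : ℕ × ℕ} (h1 : p'.1 < q) (h : Bef p' p) :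
    p'.1 + q * p'.2 < p.1 + q * p.2 := by
  rcases h with h | ⟨h, h'⟩
  · calc p'.1 + q * p'.2 < q + q * p'.2 := by omega
      _ = q * (p'.2 + 1) := by ring
      _ ≤ q * p.2 := Nat.mul_le_mul_left _ (by omega)
      _ ≤ _ := Nat.le_add_left _ _
  · rw [h]
    omega

lemma arc_box (H : Cuts L R q x) {k : ℕ} (hk : k < q * q) {i' j' : ℕ}
    (hi' : i' = (pl q k).1 ∨ i' = nxt q (pl q k).1 ∨ i' = prv q (pl q k).1)
    (hj' : j' = (pl q k).2 ∨ j' = nxt q (pl q k).2 ∨ j' = prv q (pl q k).2) :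
    cell L x (i', j') ⊆ boxAt L (3 * R) (ck L x q k) := by
  have hq : 0 < q := by have := H.three; omega
  obtain ⟨h1, h2⟩ := pl_lt hq hk
  intro v hv
  rw [mem_cell] at hv
  obtain ⟨p₁, hp₁, e₁⟩ := coord H h1 hi' hv.1.1 hv.1.2
  obtain ⟨p₂, hp₂, e₂⟩ := coord H h2 hj' hv.2.1 hv.2.2
  unfold boxAt
  refine mem_image.mpr ⟨(⟨p₁, hp₁⟩, ⟨p₂, hp₂⟩), mem_univ _, ?_⟩
  exact Prod.ext e₁ e₂

theorem isDecomp (H : Cuts L R q x) :
    IsDecomp (3 * R) ((3 * R) ^ 2) (q * q) (fun k => cell L x (pl q k)) (Bk L x q)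
      (ck L x q) := by
  have h3 := H.three
  have hq : 0 < q := by omega
  refine ⟨?_, ?_, ?_, ?_, ?_⟩
  · intro k hk k' hk' hne
    rw [Finset.disjoint_left]
    intro v hv hv'
    rw [mem_cell] at hv hv'
    obtain ⟨a1, a2⟩ := pl_lt hq hk
    obtain ⟨b1, b2⟩ := pl_lt hq hk'
    have e1 := H.unique a1 b1 hv.1.1 hv.1.2 hv'.1.1 hv'.1.2
    have e2 := H.unique a2 b2 hv.2.1 hv.2.2 hv'.2.1 hv'.2.2
    apply hne
    rw [← num_pl (q := q) k, ← num_pl (q := q) k', e1, e2]
  · intro v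
    obtain ⟨i, hi, h1, h2⟩ := H.exists_cell (ZMod.val_lt v.1)
    obtain ⟨j, hj, h3, h4⟩ := H.exists_cell (ZMod.val_lt v.2)
    obtain ⟨e1, e2⟩ := pl_num (q := q) (i, j) hi hj
    refine ⟨i + q * j, e1, ?_⟩
    simp only at e2 ⊢
    rw [e2, mem_cell]
    exact ⟨⟨h1, h2⟩, h3, h4⟩
  · intro k hk v hv
    obtain ⟨a1, a2⟩ := pl_lt hq hk
    unfold Bk arc at hv
    rw [mem_biUnion] at hv
    obtain ⟨t, ht, hv⟩ := hv
    rw [mem_range] at ht
    have hb := past h3 a1 a2 ht
    obtain ⟨b1, b2⟩ := nbr_lt hq a1 a2 ((sl q (pl q k)).1 + t)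
    obtain ⟨e1, e2⟩ := pl_num _ b1 b2
    refine ⟨(nbr q (pl q k) ((sl q (pl q k)).1 + t)).1 +
        q * (nbr q (pl q k) ((sl q (pl q k)).1 + t)).2, ?_, ?_⟩
    · have := num_lt b1 hb
      rw [num_pl] at this
      exact this
    · rw [e2]
      exact hv
  · intro k hk
    obtain ⟨a1, a2⟩ := pl_lt hq hk
    refine union_subset ?_ ?_
    · exact arc_box H hk (Or.inl rfl) (Or.inl rfl)
    · unfold Bk arc
      rw [biUnion_subset]
      intro t _
      obtain ⟨b1, b2⟩ := nbr_spec q (pl q k) ((sl q (pl q k)).1 + t)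
      exact arc_box H hk b1 b2
  · intro v
    have hinj : Set.InjOn (ck L x q) (range (q * q) : Finset ℕ) := by
      intro k hk k' hk' he
      rw [mem_coe, mem_range] at hk hk'
      obtain ⟨a1, a2⟩ := pl_lt hq hk
      obtain ⟨b1, b2⟩ := pl_lt hq hk'
      have key : ∀ i < q, ∀ j < q, (x (prv q i) : ZMod L) = (x (prv q j) : ZMod L) → i = j := by
        intro i hi j hj h
        have l1 : ∀ i < q, x (prv q i) < L := by
          intro i hi
          have hp : prv q i < q := by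
            unfold prv
            split_ifs <;> omega
          have := H.lt_of_lt hp le_rfl
          rw [H.last] at this
          exact this
        have h' : x (prv q i) = x (prv q j) := by
          have e := congrArg ZMod.val h
          rwa [ZMod.val_cast_of_lt (l1 i hi), ZMod.val_cast_of_lt (l1 j hj)] at e
        have h'' : prv q i = prv q j := by
          have hp : prv q i < q := by
            unfold prv
            split_ifs <;> omega
          have hp' : prv q j < q := by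
            unfold prv
            split_ifs <;> omega
          rcases Nat.lt_trichotomy (prv q i) (prv q j) with h1 | h1 | h1
          · have := H.lt_of_lt h1 hp'.le
            omega
          · exact h1
          · have := H.lt_of_lt h1 hp.le
            omega
        unfold prv at h''
        split_ifs at h'' <;> omega
      unfold ck at he
      rw [Prod.mk.injEq] at he
      have e1 := key _ a1 _ b1 he.1
      have e2 := key _ a2 _ b2 he.2
      rw [← num_pl (q := q) k, ← num_pl (q := q) k', e1, e2]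
    have hsub : ({k ∈ range (q * q) | v ∈ boxAt L (3 * R) (ck L x q k)}.image (ck L x q)) ⊆
        (univ : Finset (Box (3 * R))).image
          (fun p => ((v.1 - ((p.1 : ℕ) : ZMod L), v.2 - ((p.2 : ℕ) : ZMod L)) : Site L)) := by
      intro w hw
      rw [mem_image] at hw
      obtain ⟨k, hk, rfl⟩ := hw
      rw [mem_filter] at hk
      obtain ⟨-, hk⟩ := hk
      unfold boxAt at hk
      obtain ⟨p, -, hp⟩ := mem_image.mp hk
      refine mem_image.mpr ⟨p, mem_univ _, ?_⟩
      rw [← hp]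
      unfold Plain.boxPos
      refine Prod.ext ?_ ?_
      · simp
      · simp
    have hcard := (card_le_card hsub).trans card_image_le
    rw [card_image_of_injOn (hinj.mono (by
      intro k hk
      exact mem_coe.mpr (mem_of_mem_filter k (mem_coe.mp hk))))] at hcard
    refine hcard.trans ?_
    simp [sq]

lemma dk_future (H : Cuts L R q x) {k : ℕ} (hk : k < q * q) {v : Site L} (hv : v ∈ Dk L x q k) :
    ∃ i, k < i ∧ i < q * q ∧ v ∈ cell L x (pl q i) := by
  have h3 := H.three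
  have hq : 0 < q := by omega
  obtain ⟨a1, a2⟩ := pl_lt hq hk
  unfold Dk at hv
  split_ifs at hv with h0
  · exact absurd hv (notMem_empty v)
  · unfold arc at hv
    rw [mem_biUnion] at hv
    obtain ⟨t, ht, hv⟩ := hv
    rw [mem_range] at ht
    have hb := future h3 a1 a2 (by omega) ht
    obtain ⟨b1, b2⟩ := nbr_lt hq a1 a2 ((sl q (pl q k)).1 + (sl q (pl q k)).2 + t)
    obtain ⟨e1, e2⟩ := pl_num _ b1 b2
    refine ⟨(nbr q (pl q k) ((sl q (pl q k)).1 + (sl q (pl q k)).2 + t)).1 +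
        q * (nbr q (pl q k) ((sl q (pl q k)).1 + (sl q (pl q k)).2 + t)).2, ?_, e1, ?_⟩
    · have := num_lt a1 hb
      rw [num_pl] at this
      exact this
    · rw [e2]
      exact hv

/-- The corners. -/
lemma sl_zero {q : ℕ} {p : ℕ × ℕ} (h1 : p.1 < q) (h2 : p.2 < q) (h : (sl q p).2 = 0) :
    (p.1 = 0 ∨ p.1 = q - 1) ∧ (p.2 = 0 ∨ p.2 = q - 1) := by
  unfold sl at h
  split_ifs at h <;> simp at h <;> omega

lemma card_corner {q : ℕ} (hq : 0 < q) : #{k ∈ range (q * q) | (sl q (pl q k)).2 = 0} ≤ 4 := by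
  have h1 : {k ∈ range (q * q) | (sl q (pl q k)).2 = 0} ⊆
      (({0, q - 1} : Finset ℕ) ×ˢ ({0, q - 1} : Finset ℕ)).image fun p => p.1 + q * p.2 := by
    intro k hk
    rw [mem_filter, mem_range] at hk
    obtain ⟨a1, a2⟩ := pl_lt hq hk.1
    obtain ⟨b1, b2⟩ := sl_zero a1 a2 hk.2
    refine mem_image.mpr ⟨pl q k, ?_, num_pl k⟩
    rw [mem_product]
    simp only [mem_insert, mem_singleton]
    exact ⟨b1, b2⟩
  refine (card_le_card h1).trans (card_image_le.trans ?_)
  rw [card_product]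
  have h2 : #({0, q - 1} : Finset ℕ) ≤ 2 := card_le_two
  calc #({0, q - 1} : Finset ℕ) * #({0, q - 1} : Finset ℕ) ≤ 2 * 2 := Nat.mul_le_mul h2 h2
    _ = 4 := rfl

variable {d : ℕ}

lemma cuts_of (Ψ : Plain.Vec d L) {ε : ℝ} (H : LocalAxiom Ψ R q x ε) : Cuts L R q x :=
  ⟨H.three, H.zero, H.last, H.lt, H.le⟩

theorem cond_sum_le (hd : 0 < d) {Ψ : Hil d L} (hΨ : ‖Ψ‖ = 1) {ε : ℝ}
    (H : LocalAxiom Ψ.ofLp R q x ε) (hε : 0 ≤ ε) :
    condSum Ψ.ofLp (q * q) (fun k => cell L x (pl q k)) (Bk L x q) ≤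
      (q : ℝ) ^ 2 * ε + 72 * (R : ℝ) ^ 2 * Real.log d := by
  have hc := cuts_of _ H
  have h3 := H.three
  have hq : 0 < q := by omega
  have hdec := isDecomp hc
  have hd1 : (1 : ℝ) ≤ d := by exact_mod_cast hd
  have hlog : 0 ≤ Real.log d := Real.log_nonneg hd1
  have h1 := condSum_le hd hΨ (m := q * q) (A := fun k => cell L x (pl q k)) (B := Bk L x q)
    (D := Dk L x q) hdec.disj hdec.cover (fun j hj v hv => dk_future hc hj hv)
  refine h1.trans ?_
  set M : ℝ := 18 * (R : ℝ) ^ 2 * Real.log d with hM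
  have hM0 : 0 ≤ M := by positivity
  have hterm : ∀ k ∈ range (q * q), axiomOne Ψ.ofLp (cell L x (pl q k)) (Bk L x q k)
      (Dk L x q k) ≤ ε + if (sl q (pl q k)).2 = 0 then M else 0 := by
    intro k hk
    rw [mem_range] at hk
    obtain ⟨a1, a2⟩ := pl_lt hq hk
    split_ifs with h0
    · have e1 : Bk L x q k = ∅ := by
        unfold Bk arc
        rw [h0]
        simp
      have e2 : Dk L x q k = ∅ := by
        unfold Dk
        rw [if_pos h0]
      rw [e1, e2]
      unfold axiomOne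
      rw [union_empty]
      have b1 := entropy_le hd hΨ (cell L x (pl q k))
      have b2 := entropy_nonneg hΨ (∅ : Finset (Site L))
      have b3 : (#(cell L x (pl q k)) : ℝ) ≤ 9 * (R : ℝ) ^ 2 := by
        have c1 := (card_le_card (arc_box hc hk (Or.inl rfl) (Or.inl rfl))).trans
          (EC.card_boxAt (3 * R) (ck L x q k))
        have c2 : ((#(cell L x (pl q k)) : ℕ) : ℝ) ≤ (((3 * R) ^ 2 : ℕ) : ℝ) := by
          exact_mod_cast c1
        refine c2.trans (le_of_eq ?_)
        push_cast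
        ring
      have b4 := mul_le_mul_of_nonneg_right b3 hlog
      rw [hM]
      linarith
    · rw [add_zero]
      have e2 : Dk L x q k =
          arc L x q (pl q k) ((sl q (pl q k)).1 + (sl q (pl q k)).2) (8 - (sl q (pl q k)).2) := by
        unfold Dk
        rw [if_neg h0]
      rw [e2]
      exact H.ax _ a1 _ a2 (sl q (pl q k)).1 (sl q (pl q k)).2 (by omega) (sl_lt _ _)
        (sl_par q (pl q k)).1 (sl_par q (pl q k)).2
  refine (sum_le_sum hterm).trans ?_
  rw [sum_add_distrib, sum_const, card_range, nsmul_eq_mul, ← sum_filter, sum_const, nsmul_eq_mul]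
  have h4 : (#{k ∈ range (q * q) | (sl q (pl q k)).2 = 0} : ℝ) ≤ 4 := by
    exact_mod_cast card_corner hq
  have h5 := mul_le_mul_of_nonneg_right h4 hM0
  have h6 : ((q * q : ℕ) : ℝ) * ε = (q : ℝ) ^ 2 * ε := by push_cast; ring
  rw [h6]
  rw [hM] at h5 ⊢
  linarith

/-- The local entropy axiom gives ordered partitions with a small sum of conditional entropies. -/
theorem family {Ψ : ∀ (L : ℕ) [NeZero L], Hil d L} (hd : 0 < d)
    (hΨ : ∃ L₁ : ℕ, ∀ (L : ℕ) [NeZero L], L₁ ≤ L → ‖Ψ L‖ = 1)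
    (H : EntropyAxiom fun L _ => (Ψ L).ofLp) : SmallCondSum fun L _ => (Ψ L).ofLp := by
  obtain ⟨L₁, hL₁⟩ := hΨ
  obtain ⟨k, C, L₀, H⟩ := H
  have hd1 : (1 : ℝ) ≤ d := by exact_mod_cast hd
  have hlogd : 0 ≤ Real.log d := Real.log_nonneg hd1
  refine ⟨2 * k, 3 * C + 9 * C ^ 2 + (C + 72 * C ^ 2 * Real.log d), L₀ + L₁ + 3, ?_⟩
  intro L _ hL
  obtain ⟨R, q, x, hR, hax⟩ := H L (by omega)
  have hc := cuts_of _ hax
  have hL3 : (3 : ℝ) ≤ L := by
    have : 3 ≤ L := by omega
    exact_mod_cast this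
  have hL0 : (0 : ℝ) < L := by linarith
  have hl : 1 ≤ Real.log L := by
    rw [Real.le_log_iff_exp_le hL0]
    have := Real.exp_one_lt_d9
    linarith
  set l := Real.log L with hldef
  have hlk : 1 ≤ l ^ k := one_le_pow₀ hl
  have hR1 : (1 : ℝ) ≤ R := by exact_mod_cast hc.R_pos
  have hC : 0 ≤ C := by
    by_contra hneg
    push Not at hneg
    have : C * l ^ k < 0 := mul_neg_of_neg_of_pos hneg (by linarith)
    linarith
  have hle : l ^ k ≤ l ^ (2 * k) := pow_le_pow_right₀ hl (by omega)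
  have hlk2 : 0 ≤ l ^ (2 * k) := by positivity
  have hR2 : (R : ℝ) ^ 2 ≤ C ^ 2 * l ^ (2 * k) := by
    calc (R : ℝ) ^ 2 ≤ (C * l ^ k) ^ 2 := pow_le_pow_left₀ (by linarith) hR 2
      _ = C ^ 2 * l ^ (2 * k) := by rw [mul_pow, ← pow_mul, mul_comm k 2]
  have hCl : C * l ^ k ≤ C * l ^ (2 * k) := mul_le_mul_of_nonneg_left hle hC
  refine ⟨3 * R, (3 * R) ^ 2, q * q, fun k => cell L x (pl q k), Bk L x q, ck L x q, isDecomp hc,
    ?_, ?_, ?_⟩
  · push_cast
    have : 0 ≤ (9 * C ^ 2 + (C + 72 * C ^ 2 * Real.log d)) * l ^ (2 * k) := by positivity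
    calc 3 * (R : ℝ) ≤ 3 * (C * l ^ (2 * k)) := by linarith
      _ ≤ 3 * (C * l ^ (2 * k)) + (9 * C ^ 2 + (C + 72 * C ^ 2 * Real.log d)) * l ^ (2 * k) := by
        linarith
      _ = _ := by ring
  · push_cast
    have : 0 ≤ (3 * C + (C + 72 * C ^ 2 * Real.log d)) * l ^ (2 * k) := by positivity
    calc (3 * (R : ℝ)) ^ 2 = 9 * (R : ℝ) ^ 2 := by ring
      _ ≤ 9 * (C ^ 2 * l ^ (2 * k)) := by linarith
      _ ≤ 9 * (C ^ 2 * l ^ (2 * k)) + (3 * C + (C + 72 * C ^ 2 * Real.log d)) * l ^ (2 * k) := by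
        linarith
      _ = _ := by ring
  · have h1 := cond_sum_le hd (hL₁ L (by omega)) hax (by positivity)
    refine h1.trans ?_
    have hqL : (q : ℝ) ≤ L := by exact_mod_cast hc.q_le
    have h2 : (q : ℝ) ^ 2 * (C * l ^ k / (L : ℝ) ^ 2) ≤ C * l ^ k := by
      calc (q : ℝ) ^ 2 * (C * l ^ k / (L : ℝ) ^ 2) ≤
            (L : ℝ) ^ 2 * (C * l ^ k / (L : ℝ) ^ 2) := by
            refine mul_le_mul_of_nonneg_right ?_ (by positivity)
            exact pow_le_pow_left₀ (Nat.cast_nonneg _) hqL 2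
        _ = C * l ^ k := by field_simp
    have h3 : 72 * (R : ℝ) ^ 2 * Real.log d ≤ 72 * (C ^ 2 * l ^ (2 * k)) * Real.log d := by
      have := mul_le_mul_of_nonneg_right hR2 hlogd
      linarith
    have : 0 ≤ (3 * C + 9 * C ^ 2) * l ^ (2 * k) := by positivity
    calc (q : ℝ) ^ 2 * (C * l ^ k / (L : ℝ) ^ 2) + 72 * (R : ℝ) ^ 2 * Real.log d ≤
          C * l ^ (2 * k) + 72 * (C ^ 2 * l ^ (2 * k)) * Real.log d := by linarith
      _ ≤ C * l ^ (2 * k) + 72 * (C ^ 2 * l ^ (2 * k)) * Real.log d +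
          (3 * C + 9 * C ^ 2) * l ^ (2 * k) := by linarith
      _ = _ := by ring

end Pool.Agent.FFG.A1
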