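import Pool.Agent.FFG.A1.Transport
import Pool.Agent.FFG.A1.Grid
import Pool.Agent.FFG.GP.Multi
import Pool.Agent.FFG.EC.Family

/-!
# Quasi-polynomially small overlaps are transported along gapped paths
-/

open Finset
open scoped InnerProductSpace

set_option autoImplicit false
set_option linter.unusedSectionVars false
set_option linter.unusedVariables false

namespace Pool.Agent.FFG.A1

open Pool.Agent.PEPS953 Pool.Agent.FFG Pool.Agent.FFG.GP Pool.Agent.FFG.GPlain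

open Pool.Agent.FFG.EPlain (SmallCondSum condSum)

/-- Unit vectors with a small sum of conditional entropies overlap with a PEPS. -/
theorem overlap_of_cond {d : ℕ} (hd : 0 < d) {Ψ : ∀ (L : ℕ) [NeZero L], Hil d L}
    (hΨ : ∃ L₁ : ℕ, ∀ (L : ℕ) [NeZero L], L₁ ≤ L → ‖Ψ L‖ = 1)
    (H : SmallCondSum fun L _ => (Ψ L).ofLp) : QuasiOverlap Ψ := by
  obtain ⟨L₁, hL₁⟩ := hΨ
  obtain ⟨k, C, L₀, hL₀⟩ := H
  refine ⟨3 * k, 2 * Real.log d * (max C 1) ^ 3 + max C 1 + 1, max (max L₀ L₁) 3, fun L _ hL => ?_⟩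
  have hL3 : 3 ≤ L := le_trans (le_max_right _ _) hL
  have hl : 1 ≤ Real.log L := one_le_log hL3
  have hl0 : 0 ≤ Real.log L := by linarith
  obtain ⟨R, n, m, A, B, c, h1, h2, h3, h4⟩ :=
    hL₀ L (le_trans ((le_max_left _ _).trans (le_max_left _ _)) hL)
  have hΨ := hL₁ L (le_trans ((le_max_right _ _).trans (le_max_left _ _)) hL)
  have hCk : C * (Real.log L) ^ k ≤ max C 1 * (Real.log L) ^ k :=
    mul_le_mul_of_nonneg_right (le_max_left _ _) (by positivity)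
  obtain ⟨p1, p2⟩ := EC.family_param (K := condSum (Ψ L).ofLp m A B) hd (le_max_right C 1) hl
    (h2.trans hCk) (h3.trans hCk) (h4.trans hCk)
  obtain ⟨Φ, q1, q2, q3⟩ := EC.one_torus hd h1 hΨ one_pos
  exact ⟨_, Φ, q1, p1, q2, (mul_le_mul_of_nonneg_right p2 (norm_nonneg _)).trans q3⟩

/-- Transport along gapped paths. -/
theorem transport {d : ℕ} (hd : 2 ≤ d) {a : ℕ} {C₀ : ℝ} {L₁ : ℕ}
    {Φ X : ∀ (L : ℕ) [NeZero L], Plain.Vec d L}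
    (H : ∀ (L : ℕ) [NeZero L], L₁ ≤ L → Joined a C₀ L (Φ L) (X L))
    (h0 : QuasiOverlap (upF Φ)) : QuasiOverlap (upF X) := by
  obtain ⟨k, C, L₀, hL₀⟩ := h0
  obtain ⟨k₃, C₃, n₀, hC₃, hpath⟩ := ov_path hd a |C₀| (c := 1) one_pos
  obtain ⟨B, hB⟩ : ∃ B : ℝ, B = max C 1 := ⟨_, rfl⟩
  have hB1 : 1 ≤ B := hB ▸ le_max_right _ _
  have hCB : C ≤ B := hB ▸ le_max_left _ _
  refine ⟨(k + 1) * (k₃ + 1), B + 2 + C₃ * (4 * B) ^ k₃, max (max L₀ L₁) (max 3 n₀),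
    fun L _ hL => ?_⟩
  have hLa : L₀ ≤ L := le_trans (by simp) hL
  have hLb : L₁ ≤ L := le_trans (by simp) hL
  have hL3 : 3 ≤ L := le_trans (by simp) hL
  have hLn₀ : n₀ ≤ L := le_trans (by simp) hL
  have hl : 1 ≤ Real.log L := one_le_log hL3
  have hL0 : (0 : ℝ) < L := by positivity
  set l : ℝ := Real.log L with hldef
  obtain ⟨w, hw⟩ : ∃ w : ℝ, w = 2 * B * l ^ (k + 1) := ⟨_, rfl⟩
  have hlk1 : 1 ≤ l ^ (k + 1) := one_le_pow₀ hl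
  have hllk : l ≤ l ^ (k + 1) := by
    calc l = l ^ 1 := (pow_one l).symm
      _ ≤ l ^ (k + 1) := pow_le_pow_right₀ hl (by omega)
  have hw2 : 2 ≤ w := by rw [hw]; nlinarith
  have hlw : l ≤ w := by rw [hw]; nlinarith
  obtain ⟨n, hn⟩ : ∃ n : ℕ, n = ⌈Real.exp w⌉₊ := ⟨_, rfl⟩
  have hexpn : Real.exp w ≤ n := hn ▸ Nat.le_ceil _
  have hnexp : (n : ℝ) ≤ 2 * Real.exp w := by
    have h1 := (Nat.ceil_lt_add_one (Real.exp_pos w).le).le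
    rw [← hn] at h1
    have h2 : 1 ≤ Real.exp w := Real.one_le_exp (by linarith)
    linarith
  have hn0 : (0 : ℝ) < n := (Real.exp_pos w).trans_le hexpn
  have hLn : L ≤ n := by
    have h1 : (L : ℝ) ≤ n := by
      calc (L : ℝ) = Real.exp l := (Real.exp_log hL0).symm
        _ ≤ Real.exp w := Real.exp_le_exp.mpr hlw
        _ ≤ n := hexpn
    exact_mod_cast h1
  have hlogn : Real.log n ≤ 2 * w := by
    calc Real.log n ≤ Real.log (2 * Real.exp w) := Real.log_le_log hn0 hnexp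
      _ = Real.log 2 + w := by rw [Real.log_mul (by norm_num) (Real.exp_pos w).ne', Real.log_exp]
      _ ≤ 2 * w := by
        have := Real.log_two_lt_d9
        linarith
  have hllogn : l ≤ Real.log n := Real.log_le_log hL0 (by exact_mod_cast hLn)
  have hlogn0 : 0 ≤ Real.log n := by linarith
  have hlan : |C₀| * l ^ a ≤ |C₀| * (Real.log n) ^ a := by gcongr
  have hC₀ : C₀ * l ^ a ≤ |C₀| * (Real.log n) ^ a := by
    refine le_trans ?_ hlan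
    exact mul_le_mul_of_nonneg_right (le_abs_self _) (by positivity)
  obtain ⟨r, J, Δ, j1, j2, j3, j4, j5, j6⟩ := H L hLb
  obtain ⟨D, Θ, hΘ, hD, hΘ0, hov⟩ := hL₀ L hLa
  obtain ⟨D₁, hD₁⟩ : ∃ D₁ : ℕ, D₁ = max D 1 := ⟨_, rfl⟩
  have hΘ₁ : IsPEPS D₁ Θ := isPEPS_mono (hD₁ ▸ le_max_left _ _) hΘ
  have hD₁0 : 0 < D₁ := hD₁ ▸ lt_of_lt_of_le Nat.one_pos (le_max_right _ _)
  have hΘn : 0 < ‖Θ‖ := norm_pos_iff.mpr hΘ0
  have hΘ₂ : IsPEPS D₁ (((‖Θ‖⁻¹ : ℝ) : ℂ) • Θ) := hΘ₁.smul _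
  have hΘ₂n : ‖((‖Θ‖⁻¹ : ℝ) : ℂ) • Θ‖ = 1 := by
    rw [norm_smul, Complex.norm_real, Real.norm_of_nonneg (by positivity), inv_mul_cancel₀ hΘn.ne']
  obtain ⟨D', Φ', hD'0, hΦ', hD', hn', hov'⟩ := hpath n (hLn₀.trans hLn) L hLn r J Δ j1
    (j2.trans hC₀) (j3.trans hC₀) j4 (j5.trans hC₀) _ _ (gpath2_of j6) D₁ _ hD₁0 hΘ₂ hΘ₂n
  -- the overlap
  obtain ⟨δ, hδ⟩ : ∃ δ : ℝ, δ = Real.exp (-(B * l ^ (k + 1))) := ⟨_, rfl⟩
  have hδ0 : 0 < δ := hδ ▸ Real.exp_pos _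
  have hδ1 : δ ≤ 1 / 2 := by
    rw [hδ]
    calc Real.exp (-(B * l ^ (k + 1))) ≤ Real.exp (-1) := Real.exp_le_exp.mpr (by nlinarith)
      _ ≤ 1 / 2 := by
        rw [Real.exp_neg, one_div]
        refine inv_anti₀ (by norm_num) ?_
        have := Real.add_one_le_exp (1 : ℝ)
        linarith
  have hlk : l ^ k ≤ l ^ (k + 1) := pow_le_pow_right₀ hl (by omega)
  have hlk0 : 0 ≤ l ^ k := by positivity
  have hCl : C * l ^ k ≤ B * l ^ (k + 1) := by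
    calc C * l ^ k ≤ B * l ^ k := mul_le_mul_of_nonneg_right hCB hlk0
      _ ≤ B * l ^ (k + 1) := mul_le_mul_of_nonneg_left hlk (by linarith)
  have hnδ : (n : ℝ) ^ (-(1 : ℝ)) ≤ δ / 2 := by
    rw [Real.rpow_neg hn0.le, Real.rpow_one]
    calc (n : ℝ)⁻¹ ≤ (Real.exp w)⁻¹ := inv_anti₀ (Real.exp_pos _) hexpn
      _ = δ * δ := by
        rw [hδ, ← Real.exp_add, ← Real.exp_neg, hw]
        congr 1
        ring
      _ ≤ δ / 2 := by nlinarith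
  have h1 : δ ≤ ‖⟪(upF Φ L), ((‖Θ‖⁻¹ : ℝ) : ℂ) • Θ⟫_ℂ‖ := by
    rw [inner_smul_right, norm_mul, Complex.norm_real, Real.norm_of_nonneg (by positivity)]
    have h2 : δ * ‖Θ‖ ≤ ‖⟪(upF Φ L), Θ⟫_ℂ‖ := by
      refine le_trans (mul_le_mul_of_nonneg_right ?_ (norm_nonneg _)) hov
      rw [hδ]
      exact Real.exp_le_exp.mpr (neg_le_neg hCl)
    calc δ = ‖Θ‖⁻¹ * (δ * ‖Θ‖) := by field_simp
      _ ≤ _ := mul_le_mul_of_nonneg_left h2 (by positivity)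
  have h2 : δ / 2 ≤ ‖⟪(upF X L), Φ'⟫_ℂ‖ := by
    have h3 : ‖⟪(upF Φ L), ((‖Θ‖⁻¹ : ℝ) : ℂ) • Θ⟫_ℂ‖ ≤
        ‖⟪(upF X L), Φ'⟫_ℂ‖ + (n : ℝ) ^ (-(1 : ℝ)) := hov'
    linarith
  have h3 : ‖Φ'‖ ≤ 2 := by linarith
  refine ⟨D', Φ', hΦ', ?_, ?_, ?_⟩
  · -- the bond dimension
    have e1 : (D₁ : ℝ) ≤ Real.exp (B * l ^ (k + 1)) := by
      rw [hD₁]
      push_cast
      refine max_le (hD.trans (Real.exp_le_exp.mpr hCl)) (Real.one_le_exp (by positivity))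
    have e2 : C₃ * (Real.log n) ^ k₃ ≤ C₃ * (4 * B) ^ k₃ * l ^ ((k + 1) * k₃) := by
      calc C₃ * (Real.log n) ^ k₃ ≤ C₃ * (2 * w) ^ k₃ := by gcongr
        _ = C₃ * (4 * B) ^ k₃ * l ^ ((k + 1) * k₃) := by
          rw [hw, show 2 * (2 * B * l ^ (k + 1)) = (4 * B) * l ^ (k + 1) by ring, mul_pow,
            ← pow_mul]
          ring
    calc (D' : ℝ) ≤ D₁ * Real.exp (C₃ * (Real.log n) ^ k₃) := hD'
      _ ≤ Real.exp (B * l ^ (k + 1)) * Real.exp (C₃ * (4 * B) ^ k₃ * l ^ ((k + 1) * k₃)) := by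
        gcongr
      _ = Real.exp (B * l ^ (k + 1) + C₃ * (4 * B) ^ k₃ * l ^ ((k + 1) * k₃)) := by
        rw [Real.exp_add]
      _ ≤ _ := by
        apply Real.exp_le_exp.mpr
        have f1 : l ^ (k + 1) ≤ l ^ ((k + 1) * (k₃ + 1)) :=
          pow_le_pow_right₀ hl (Nat.le_mul_of_pos_right _ (by omega))
        have f2 : l ^ ((k + 1) * k₃) ≤ l ^ ((k + 1) * (k₃ + 1)) :=
          pow_le_pow_right₀ hl (Nat.mul_le_mul_left _ (by omega))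
        have f3 : B * l ^ (k + 1) ≤ B * l ^ ((k + 1) * (k₃ + 1)) :=
          mul_le_mul_of_nonneg_left f1 (by linarith)
        have f4 : C₃ * (4 * B) ^ k₃ * l ^ ((k + 1) * k₃) ≤
            C₃ * (4 * B) ^ k₃ * l ^ ((k + 1) * (k₃ + 1)) :=
          mul_le_mul_of_nonneg_left f2 (by positivity)
        have f5 : 0 ≤ 2 * l ^ ((k + 1) * (k₃ + 1)) := by positivity
        linarith
  · rintro rfl
    rw [inner_zero_right, norm_zero] at h2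
    linarith
  · have f1 : l ^ (k + 1) ≤ l ^ ((k + 1) * (k₃ + 1)) :=
      pow_le_pow_right₀ hl (Nat.le_mul_of_pos_right _ (by omega))
    have f2 : 1 ≤ l ^ ((k + 1) * (k₃ + 1)) := one_le_pow₀ hl
    have f3 : 0 ≤ C₃ * (4 * B) ^ k₃ * l ^ ((k + 1) * (k₃ + 1)) := by positivity
    have f4 : Real.exp (-((B + 2 + C₃ * (4 * B) ^ k₃) * l ^ ((k + 1) * (k₃ + 1)))) ≤ δ / 4 := by
      calc Real.exp (-((B + 2 + C₃ * (4 * B) ^ k₃) * l ^ ((k + 1) * (k₃ + 1)))) ≤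
            Real.exp (-(B * l ^ (k + 1)) + -2) := by
            apply Real.exp_le_exp.mpr
            have := mul_le_mul_of_nonneg_left f1 (by linarith : 0 ≤ B)
            nlinarith
        _ = δ * Real.exp (-2) := by rw [Real.exp_add, hδ]
        _ ≤ δ * (1 / 4) := by
          refine mul_le_mul_of_nonneg_left ?_ hδ0.le
          rw [Real.exp_neg, one_div]
          refine inv_anti₀ (by norm_num) ?_
          have e1 : Real.exp 2 = Real.exp 1 * Real.exp 1 := by rw [← Real.exp_add]; norm_num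
          have e2 := Real.add_one_le_exp (1 : ℝ)
          rw [e1]
          nlinarith
        _ = δ / 4 := by ring
    calc Real.exp (-((B + 2 + C₃ * (4 * B) ^ k₃) * l ^ ((k + 1) * (k₃ + 1)))) * ‖Φ'‖ ≤
          δ / 4 * 2 := mul_le_mul f4 h3 (norm_nonneg _) (by positivity)
      _ = δ / 2 := by ring
      _ ≤ _ := h2

/-- The slice. -/
noncomputable abbrev sl₂ {d d' L : ℕ} [NeZero L] (Φ : Hil (d * d') L) (b : Conf d' L) : Hil d L :=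
  Pool.Agent.FFG.GP.sl Φ b

/-- A factor of a product vector. -/
theorem overlap_left {d d' : ℕ} {Ψ : ∀ (L : ℕ) [NeZero L], Hil d L}
    {Ψ' : ∀ (L : ℕ) [NeZero L], Hil d' L} {L₁ : ℕ}
    (h : ∀ (L : ℕ) [NeZero L], L₁ ≤ L → ‖Ψ' L‖ = 1)
    (H : QuasiOverlap fun L _ => stk (Ψ L) (Ψ' L)) : QuasiOverlap Ψ := by
  obtain ⟨k, C, L₀, hL₀⟩ := H
  refine ⟨k, C, max L₀ L₁, fun L _ hL => ?_⟩
  obtain ⟨D, Φ, h1, h2, h3, h4⟩ := hL₀ L ((le_max_left _ _).trans hL)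
  have hΨ' := h L ((le_max_right _ _).trans hL)
  set x : ℝ := Real.exp (-(C * (Real.log L) ^ k)) with hx
  have hx0 : 0 < x := Real.exp_pos _
  by_contra hcon
  push Not at hcon
  have hb : ∀ b, ‖⟪Ψ L, sl₂ Φ b⟫_ℂ‖ ≤ x * ‖sl₂ Φ b‖ ∧
      (sl₂ Φ b ≠ 0 → ‖⟪Ψ L, sl₂ Φ b⟫_ℂ‖ < x * ‖sl₂ Φ b‖) := by
    intro b
    by_cases h0 : sl₂ Φ b = 0
    · rw [h0]
      simp
    · have := hcon D (sl₂ Φ b) (sl_peps h1 b) h2 h0
      exact ⟨this.le, fun _ => this⟩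
  obtain ⟨b₀, hb₀⟩ : ∃ b, sl₂ Φ b ≠ 0 := by
    by_contra hc
    push Not at hc
    apply h3
    have e1 := sum_sl Φ
    simp only [hc, norm_zero, ne_eq, OfNat.ofNat_ne_zero, not_false_eq_true, zero_pow,
      Finset.sum_const_zero] at e1
    have e2 : ‖Φ‖ = 0 := by
      have := e1.symm
      exact pow_eq_zero_iff (two_ne_zero) |>.mp this
    exact norm_eq_zero.mp e2
  have e1 : ⟪stk (Ψ L) (Ψ' L), Φ⟫_ℂ =
      ∑ b, (starRingEnd ℂ) ((Ψ' L) b) * ⟪Ψ L, sl₂ Φ b⟫_ℂ := by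
    have e2 : ∀ b, (starRingEnd ℂ) ((Ψ' L) b) * ⟪Ψ L, sl₂ Φ b⟫_ℂ =
        ⟪Pool.Agent.FFG.GP.sl (stk (Ψ L) (Ψ' L)) b, Pool.Agent.FFG.GP.sl Φ b⟫_ℂ := by
      intro b
      rw [sl_stk, inner_smul_left]
    calc ⟪stk (Ψ L) (Ψ' L), Φ⟫_ℂ =
          ∑ b, ⟪Pool.Agent.FFG.GP.sl (stk (Ψ L) (Ψ' L)) b, Pool.Agent.FFG.GP.sl Φ b⟫_ℂ := by
          simp only [PiLp.inner_apply]
          rw [← (confEquiv d d' L).sum_comp, Fintype.sum_prod_type_right]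
          rfl
      _ = _ := Finset.sum_congr rfl fun b _ => (e2 b).symm
  have e2 : ‖⟪stk (Ψ L) (Ψ' L), Φ⟫_ℂ‖ ^ 2 ≤ ∑ b, ‖⟪Ψ L, sl₂ Φ b⟫_ℂ‖ ^ 2 := by
    have e3 : ‖⟪stk (Ψ L) (Ψ' L), Φ⟫_ℂ‖ ≤ ∑ b, ‖(Ψ' L) b‖ * ‖⟪Ψ L, sl₂ Φ b⟫_ℂ‖ := by
      rw [e1]
      refine (norm_sum_le _ _).trans (le_of_eq ?_)
      refine Finset.sum_congr rfl fun b _ => ?_
      rw [norm_mul, RCLike.norm_conj]
    have e4 := Finset.sum_mul_sq_le_sq_mul_sq Finset.univ (fun b => ‖(Ψ' L) b‖)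
      (fun b => ‖⟪Ψ L, sl₂ Φ b⟫_ℂ‖)
    have e5 : ∑ b, ‖(Ψ' L) b‖ ^ 2 = 1 := by
      rw [← EuclideanSpace.norm_sq_eq, hΨ', one_pow]
    rw [e5, one_mul] at e4
    exact (pow_le_pow_left₀ (norm_nonneg _) e3 2).trans e4
  have e3 : ∑ b, ‖⟪Ψ L, sl₂ Φ b⟫_ℂ‖ ^ 2 < ∑ b, (x * ‖sl₂ Φ b‖) ^ 2 := by
    refine Finset.sum_lt_sum (fun b _ => pow_le_pow_left₀ (norm_nonneg _) (hb b).1 2)
      ⟨b₀, Finset.mem_univ _, ?_⟩
    exact pow_lt_pow_left₀ ((hb b₀).2 hb₀) (norm_nonneg _) two_ne_zero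
  have e4 : ∑ b, (x * ‖sl₂ Φ b‖) ^ 2 = (x * ‖Φ‖) ^ 2 := by
    simp only [mul_pow]
    rw [← Finset.mul_sum, sum_sl]
  have e5 : (x * ‖Φ‖) ^ 2 ≤ ‖⟪stk (Ψ L) (Ψ' L), Φ⟫_ℂ‖ ^ 2 :=
    pow_le_pow_left₀ (by positivity) h4 2
  linarith

end Pool.Agent.FFG.A1
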