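import Pool.Agent.FFG.EC.Plain

/-!
# The local entropy axiom in plain terms
-/

open Finset

set_option autoImplicit false

namespace Pool.Agent.FFG.APlain

open Pool.Agent.PEPS953.Plain Pool.Agent.FFG.EPlain

/-- The cell `[x i, x (i + 1)) × [x j, x (j + 1))` of the torus. -/
def cell (L : ℕ) [NeZero L] (x : ℕ → ℕ) (p : ℕ × ℕ) : Finset (Site L) :=
  {v | (x p.1 ≤ v.1.val ∧ v.1.val < x (p.1 + 1)) ∧ (x p.2 ≤ v.2.val ∧ v.2.val < x (p.2 + 1))}

/-- The successor of `i` modulo `q`, for `i < q`. -/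
def nxt (q i : ℕ) : ℕ := if i + 1 < q then i + 1 else 0

/-- The predecessor of `i` modulo `q`, for `i < q`. -/
def prv (q i : ℕ) : ℕ := if i = 0 then q - 1 else i - 1

/-- The eight neighbours of the place `p` of a cyclic `q × q` array, in cyclic order: east,
north-east, north, north-west, west, south-west, south, south-east. -/
def nbr (q : ℕ) (p : ℕ × ℕ) (t : ℕ) : ℕ × ℕ :=
  match t % 8 with
  | 0 => (nxt q p.1, p.2)
  | 1 => (nxt q p.1, nxt q p.2)
  | 2 => (p.1, nxt q p.2)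
  | 3 => (prv q p.1, nxt q p.2)
  | 4 => (prv q p.1, p.2)
  | 5 => (prv q p.1, prv q p.2)
  | 6 => (p.1, prv q p.2)
  | _ => (nxt q p.1, prv q p.2)

/-- The union of `l` consecutive neighbours of the cell `p`, beginning with the one of number
`s`. -/
def arc (L : ℕ) [NeZero L] (x : ℕ → ℕ) (q : ℕ) (p : ℕ × ℕ) (s l : ℕ) : Finset (Site L) :=
  (range l).biUnion fun t => cell L x (nbr q p (s + t))

/-- `S(B ∪ A) - S(B) + S(A ∪ D) - S(D)`, with `S` the entropy of the reduced density matrix of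
`Ψ`. -/
noncomputable def axiomOne {d L : ℕ} [NeZero L] (Ψ : Vec d L) (A B D : Finset (Site L)) : ℝ :=
  (entropy Ψ (A ∪ B) - entropy Ψ B) + (entropy Ψ (A ∪ D) - entropy Ψ D)

/-- `0 = x 0 < x 1 < … < x q = L`, with steps at most `R` and `q ≥ 3`, cut the torus into cells, and
`S(A ∪ B) + S(A ∪ D) - S(B) - S(D) ≤ ε` for every cell `A` and every partition of its eight
neighbours into two arcs, with unions `B` and `D`, such that each of them contains a neighbour which
has a side in common with `A` (one of even number). -/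
structure LocalAxiom {d L : ℕ} [NeZero L] (Ψ : Vec d L) (R q : ℕ) (x : ℕ → ℕ) (ε : ℝ) : Prop where
  three : 3 ≤ q
  zero : x 0 = 0
  last : x q = L
  lt : ∀ i < q, x i < x (i + 1)
  le : ∀ i < q, x (i + 1) ≤ x i + R
  ax : ∀ i < q, ∀ j < q, ∀ s l : ℕ, 0 < l → l < 8 → (l = 1 → s % 2 = 0) → (l = 7 → s % 2 = 1) →
    axiomOne Ψ (cell L x (i, j)) (arc L x q (i, j) s l) (arc L x q (i, j) (s + l) (8 - l)) ≤ ε

/-- For suitable `k`, `C` and all large `L` the vector `Ψ L` has the property `LocalAxiom`, with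
cells of side at most `C (log L) ^ k` and error `C (log L) ^ k / L ^ 2`. -/
def EntropyAxiom {d : ℕ} (Ψ : ∀ (L : ℕ) [NeZero L], Vec d L) : Prop :=
  ∃ (k : ℕ) (C : ℝ) (L₀ : ℕ), ∀ (L : ℕ) [NeZero L], L₀ ≤ L →
    ∃ (R q : ℕ) (x : ℕ → ℕ), (R : ℝ) ≤ C * (Real.log L) ^ k ∧
      LocalAxiom (Ψ L) R q x (C * (Real.log L) ^ k / (L : ℝ) ^ 2)

end Pool.Agent.FFG.APlain
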