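import Pool.Agent.FFG.GP.Path3

/-!
# Transport of an overlap along a gapped path
-/

open Finset
open scoped InnerProductSpace

set_option autoImplicit false
set_option linter.unusedSectionVars false
set_option linter.unusedVariables false

namespace Pool.Agent.FFG.A1

open Pool.Agent.PEPS953 Pool.Agent.FFG Pool.Agent.FFG.GP

/-- Transport of an overlap on one torus of side `L ≤ n`, with cells of size at most `L`. -/
theorem ov_step {d L r : ℕ} [NeZero L] (hd : 2 ≤ d) (hr : 0 < r) {J Δ c : ℝ} (hc : 0 < c)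
    (hΔ : 0 < Δ) {Ψ₀ Ψ₁ : Hil d L} (hpath : GPath2 L d r J Δ Ψ₀ Ψ₁) {A Q N n : ℕ}
    (hA : c + 9 ≤ A) (hrQ : r ≤ Q) (hJQ : J ≤ Q) (hΔQ : 1 / Δ ≤ Q) (hN1 : 1 ≤ N)
    (hlog : Real.log n ≤ N) (hn : rn A Q N + (tn A Q N + (Q + 21)) ≤ n) (hLn : L ≤ n)
    (hRL : rn A Q N ≤ L) {D : ℕ} {Φ : Hil d L} (hΦ : IsPEPS D Φ) (hΦ1 : ‖Φ‖ = 1) :
    ∃ Φ' : Hil d L, IsPEPS (D * ((d ^ (2 * (9 * (rn A Q N) ^ 2))) ^ 9) ^ 5) Φ' ∧
      ‖Φ'‖ ≤ 1 + (n : ℝ) ^ (-c) ∧ ‖⟪Ψ₀, Φ⟫_ℂ‖ ≤ ‖⟪Ψ₁, Φ'⟫_ℂ‖ + (n : ℝ) ^ (-c) := by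
  have hQ1 : 1 ≤ Q := by omega
  have hm2 : Q ≤ sn A Q N := by
    unfold sn
    nlinarith
  have hsr : sn A Q N ≤ rn A Q N := by
    unfold rn
    omega
  have hrL : r ≤ L := by omega
  have hL1 : 1 ≤ L := by omega
  -- the filter
  obtain ⟨T, w, hT0, hTle, hwc, hw1, hwε⟩ := exists_filter hΔ (2 * (A * N))
  have hTB : T ≤ (tn A Q N : ℕ) := by
    refine hTle.trans ?_
    calc 4 * ((2 * (A * N) : ℕ) + 1 : ℝ) / Δ = 4 * ((2 * (A * N) : ℕ) + 1 : ℝ) * (1 / Δ) := by ring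
      _ ≤ 4 * ((2 * A + 1 : ℕ) * N : ℝ) * Q := by
        gcongr
        have : 2 * (A * N) + 1 ≤ (2 * A + 1) * N := by nlinarith
        exact_mod_cast this
      _ = _ := by unfold tn; push_cast; ring
  -- the Lieb-Robinson parameters
  set n₂ : ℕ := 8 * m2 A Q N with hn₂
  set ρ : ℕ := (n₂ + 1) * r with hρ
  set σ : ℕ := ρ + r with hσ
  have hσS : σ ≤ sn A Q N := by
    have h1 : σ = (n₂ + 2) * r := by rw [hσ, hρ]; ring
    rw [h1, hn₂]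
    exact Nat.mul_le_mul_left _ hrQ
  set g : ℕ := (4 * (ρ + r) + 1) ^ 2 with hg
  have hgS : g ≤ (4 * sn A Q N + 1) ^ 2 := by
    rw [hg]
    exact Nat.pow_le_pow_left (by omega) 2
  set n₃ : ℕ := 8 * m3 A Q N with hn₃
  set R : ℕ := rn A Q N with hR
  have hRb : 10 * σ + 8 * (n₃ * σ) + 1 ≤ R := by
    have h1 : n₃ * σ ≤ n₃ * sn A Q N := Nat.mul_le_mul_left _ hσS
    rw [hR]
    unfold rn
    rw [← hn₃]
    omega
  -- the clamped path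
  obtain ⟨h, h', E₀, Ψ, hherm, hderiv, hcont, hbd, hgs, hΨ0', hΨ1'⟩ := hpath
  have hJ0 : 0 ≤ J :=
    (norm_nonneg _).trans ((hbd (0, 0) 0 ⟨le_rfl, zero_le_one⟩).1)
  have hhc : ∀ v, ContinuousOn (h v) (Set.Icc 0 1) := fun v =>
    continuousOn_pi.mpr fun i => continuousOn_pi.mpr fun j s hs =>
      (gp18_entry (hderiv v s hs) i j).continuousWithinAt
  set hc' : Site L → ℝ → Matrix (LConf d r) (LConf d r) ℂ := fun v s => h v (gp19_cl s) with hhc'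
  set hd' : Site L → ℝ → Matrix (LConf d r) (LConf d r) ℂ := fun v s => h' v (gp19_cl s) with hhd'
  have c1 : ∀ v, Continuous (hc' v) := fun v => gp19_clamp_cont (hhc v)
  have c2 : ∀ v, Continuous (hd' v) := fun v => gp19_clamp_cont (hcont v)
  have c3 : ∀ v s, (hc' v s).IsHermitian := fun v s => hherm v _ (gp19_cl_mem s)
  have c4 : ∀ v s, (hd' v s).IsHermitian := fun v s =>
    gp19_herm (hherm v) (gp19_cl_mem s) (hderiv v _ (gp19_cl_mem s))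
  have c5 : ∀ v, ∀ s ∈ Set.Icc (0 : ℝ) 1, HasDerivWithinAt (hc' v) (hd' v s) (Set.Icc 0 1) s := by
    intro v s hs
    have h1 := hderiv v s hs
    have h2 : hd' v s = h' v s := by rw [hhd']; simp only [gp19_cl_eq hs]
    rw [h2]
    refine gp19_ofEntry fun i j => (gp18_entry h1 i j).congr (fun t ht => ?_) ?_
    · rw [hhc']; simp only [gp19_cl_eq ht]
    · rw [hhc']; simp only [gp19_cl_eq hs]
  have c6 : ∀ s ∈ Set.Icc (0 : ℝ) 1,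
      IsGappedGS (hamS (fun v => hc' v s) univ) (E₀ s) Δ (Ψ s) := by
    intro s hs
    have h2 : (fun v => hc' v s) = fun v => h v s := by
      funext v
      rw [hhc']; simp only [gp19_cl_eq hs]
    rw [h2]
    exact hgs s hs
  have hJ : ∀ v s, ‖locOp L (hc' v s) v‖ ≤ J := fun v s => (hbd v _ (gp19_cl_mem s)).1
  have hJ' : ∀ v s, ‖locOp L (hd' v s) v‖ ≤ J := fun v s => (hbd v _ (gp19_cl_mem s)).2
  -- the system
  have hsys := gp20_kv_lsys (L := L) hrL c1 c2 c3 c4 (J' := J) hJ' hwc hw1 hT0.le ρ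
  obtain ⟨U, hU⟩ := exists_propag
    (fun s => ∑ v : Site L, KV (fun u => hc' u s) (fun u => hd' u s) w T (LT.ball ρ {v}) v)
    (continuous_finsetSum _ fun v _ => KV_cont c1 c2 hwc T _ v)
  obtain ⟨θ, hθ, hΨ1⟩ := gp20_adiabatic hr hrL c1 c2 c3 c4 c5 (J := J) (J' := J) hJ hJ' hΔ c6 hwc
    hw1 hT0.le hwε n₂ ρ le_rfl hU
  rw [hΨ0', hΨ1'] at hΨ1
  obtain ⟨Φ', hΦ', hΦ'U⟩ := evolve_peps (L := L) (R := R) (σ := ρ + r) (n := n₃) (by omega)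
    hRb hRL (J := T * J) (by positivity) hsys hU hΦ
  have hUu := hU.unitary (continuous_finsetSum _ fun v _ => KV_cont c1 c2 hwc T _ v)
    (fun s => gp18_sum_sa _ fun v _ => hsys.sa v s) 1
  have hUin : ∀ x y : Hil d L, ⟪U 1 x, U 1 y⟫_ℂ = ⟪x, y⟫_ℂ := by
    intro x y
    rw [← ContinuousLinearMap.adjoint_inner_right, ← ContinuousLinearMap.star_eq_adjoint,
      ← mul_apply_eq_comp, hUu.1, one_apply_eq_self]
  have hUn : ∀ x : Hil d L, ‖U 1 x‖ = ‖x‖ := by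
    intro x
    have h4 := hUin x x
    rw [inner_self_eq_norm_sq_to_K, inner_self_eq_norm_sq_to_K] at h4
    have h5 : ‖U 1 x‖ ^ 2 = ‖x‖ ^ 2 := by exact_mod_cast h4
    exact (pow_left_inj₀ (norm_nonneg _) (norm_nonneg _) two_ne_zero).mp h5
  have h0m : (0 : ℝ) ∈ Set.Icc (0 : ℝ) 1 := ⟨le_rfl, zero_le_one⟩
  have h1m : (1 : ℝ) ∈ Set.Icc (0 : ℝ) 1 := ⟨zero_le_one, le_rfl⟩
  have hΨ1n : ‖Ψ₁‖ = 1 := by rw [← hΨ1']; exact (c6 1 h1m).norm_eq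
  have hΦ2 : ‖Φ‖ ≤ 2 := by rw [hΦ1]; norm_num
  -- the three exponentially small numbers
  have hx2 : 2 * J * ((4 * r ^ 2 : ℕ) : ℝ) * T ≤ ((m2 A Q N : ℕ) : ℝ) := by
    calc 2 * J * ((4 * r ^ 2 : ℕ) : ℝ) * T
        ≤ 2 * (Q : ℝ) * ((4 * Q ^ 2 : ℕ) : ℝ) * (tn A Q N : ℕ) := by
          gcongr
      _ = ((8 * Q ^ 3 * tn A Q N : ℕ) : ℝ) := by push_cast; ring
      _ ≤ _ := by
        unfold m2
        exact_mod_cast Nat.le_add_right _ _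
  have hx3 : 2 * (T * J) * (g : ℝ) ≤ ((m3 A Q N : ℕ) : ℝ) := by
    calc 2 * (T * J) * (g : ℝ) ≤ 2 * ((tn A Q N : ℕ) * (Q : ℝ)) * (((4 * sn A Q N + 1) ^ 2 : ℕ) : ℝ) := by
          gcongr
      _ = ((2 * tn A Q N * Q * (4 * sn A Q N + 1) ^ 2 : ℕ) : ℝ) := by push_cast; ring
      _ ≤ _ := by
        unfold m3
        exact_mod_cast Nat.le_add_right _ _
  have haX : A * N ≤ m2 A Q N := by unfold m2; omega
  have haX' : A * N ≤ m3 A Q N := by unfold m3; omega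
  have hδ2 := gp19_fact (m2 A Q N) (by positivity) hx2
  have hδ3 := gp19_fact (m3 A Q N) (by positivity) hx3
  have hδ2' := hδ2.trans (Real.exp_le_exp.mpr (neg_le_neg (Nat.cast_le (α := ℝ).mpr haX)))
  have hδ3' := hδ3.trans (Real.exp_le_exp.mpr (neg_le_neg (Nat.cast_le (α := ℝ).mpr haX')))
  have hQL : (Q : ℝ) ≤ n := by exact_mod_cast (by omega : Q ≤ n)
  have htL : ((tn A Q N : ℕ) : ℝ) ≤ n := by exact_mod_cast (by omega : tn A Q N ≤ n)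
  have herr := gp21_err (L := L) (n := n) (N := N) hc hΔ hA hlog hLn hT0.le (hTB.trans htL) hJ0
    (hJQ.trans hQL) (hΔQ.trans hQL) (by omega) (norm_nonneg Φ) hΦ2
    (div_le_div_of_nonneg_right (gp19_half (A * N)) hΔ.le) hδ2' hδ3' (by positivity)
    (by positivity) (by positivity)
  have key : ‖Φ' - U 1 Φ‖ + ‖Ψ₁ - θ • U 1 Ψ₀‖ ≤ (n : ℝ) ^ (-c) :=
    (add_le_add hΦ'U hΨ1).trans herr
  refine ⟨Φ', hΦ', ?_, ?_⟩
  · calc ‖Φ'‖ = ‖(Φ' - U 1 Φ) + U 1 Φ‖ := by rw [sub_add_cancel]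
      _ ≤ ‖Φ' - U 1 Φ‖ + ‖U 1 Φ‖ := norm_add_le _ _
      _ ≤ 1 + (n : ℝ) ^ (-c) := by
        rw [hUn, hΦ1]
        have := norm_nonneg (Ψ₁ - θ • U 1 Ψ₀)
        linarith
  · have e1 : ⟪θ • U 1 Ψ₀, U 1 Φ⟫_ℂ =
        ⟪Ψ₁, Φ'⟫_ℂ - ⟪Ψ₁, Φ' - U 1 Φ⟫_ℂ - ⟪Ψ₁ - θ • U 1 Ψ₀, U 1 Φ⟫_ℂ := by
      rw [inner_sub_right, inner_sub_left]
      ring
    have e2 : ‖⟪θ • U 1 Ψ₀, U 1 Φ⟫_ℂ‖ = ‖⟪Ψ₀, Φ⟫_ℂ‖ := by
      rw [inner_smul_left, norm_mul, RCLike.norm_conj, hθ, one_mul, hUin]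
    rw [← e2, e1]
    refine (norm_sub_le _ _).trans ((add_le_add_left (norm_sub_le _ _) _).trans ?_)
    have e3 : ‖⟪Ψ₁, Φ' - U 1 Φ⟫_ℂ‖ ≤ ‖Φ' - U 1 Φ‖ := by
      refine (norm_inner_le_norm _ _).trans ?_
      rw [hΨ1n, one_mul]
    have e4 : ‖⟪Ψ₁ - θ • U 1 Ψ₀, U 1 Φ⟫_ℂ‖ ≤ ‖Ψ₁ - θ • U 1 Ψ₀‖ := by
      refine (norm_inner_le_norm _ _).trans ?_
      rw [hUn, hΦ1, mul_one]
    linarith

/-- Transport of an overlap, constants and error in terms of `n ≥ L`. -/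
theorem ov_path {d : ℕ} (hd : 2 ≤ d) (a : ℕ) (C₀ : ℝ) {c : ℝ} (hc : 0 < c) :
    ∃ (k : ℕ) (C : ℝ) (n₀ : ℕ), 0 ≤ C ∧ ∀ n : ℕ, n₀ ≤ n → ∀ (L : ℕ) [NeZero L], L ≤ n →
      ∀ (r : ℕ) (J Δ : ℝ), 0 < r → (r : ℝ) ≤ C₀ * (Real.log n) ^ a →
        J ≤ C₀ * (Real.log n) ^ a → 0 < Δ → 1 / Δ ≤ C₀ * (Real.log n) ^ a →
      ∀ x y : Hil d L, GPath2 L d r J Δ x y → ∀ (D : ℕ) (Φ : Hil d L), 0 < D → IsPEPS D Φ →
        ‖Φ‖ = 1 → ∃ (D' : ℕ) (Φ' : Hil d L), 0 < D' ∧ IsPEPS D' Φ' ∧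
          (D' : ℝ) ≤ D * Real.exp (C * (Real.log n) ^ k) ∧
          ‖Φ'‖ ≤ 1 + (n : ℝ) ^ (-c) ∧ ‖⟪x, Φ⟫_ℂ‖ ≤ ‖⟪y, Φ'⟫_ℂ‖ + (n : ℝ) ^ (-c) := by
  obtain ⟨K, hK⟩ := exists_nat_ge C₀
  obtain ⟨A, hA⟩ := exists_nat_ge (c + 9)
  have hq : PB (fun N => K * N ^ a) := (PB.const K).mul (PB.id.pow a)
  obtain ⟨n₀, hn₀⟩ := (gp20_PB hq A).eventually
  -- a bound for the size of the cells
  have hrn : PB (fun N => rn A (K * N ^ a) N) := by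
    obtain ⟨Y, E, hYE⟩ := gp20_PB hq A
    exact ⟨Y, E, fun N hN => le_trans (Nat.le_add_right _ _) (hYE N hN)⟩
  obtain ⟨Y, E, hYE⟩ := hrn
  have hd0 : (0 : ℝ) < d := by
    have : 0 < d := by omega
    exact_mod_cast this
  have hdlog : 0 ≤ Real.log d := Real.log_nonneg (by exact_mod_cast (by omega : 1 ≤ d))
  refine ⟨2 * E, 810 * Real.log d * (Y * 2 ^ E) ^ 2, n₀, by positivity, fun n hn L _ hLn r J Δ hr
    hrC hJC hΔ hΔC x y hpath D Φ hD hΦ hΦ1 => ?_⟩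
  obtain ⟨hl1, hl4⟩ := hn₀ n hn
  set l : ℝ := Real.log n with hl
  set N : ℕ := ⌈l⌉₊ with hN
  have hlN : l ≤ N := Nat.le_ceil l
  have hN1' : (1 : ℝ) ≤ N := hl1.trans hlN
  have hN1 : 1 ≤ N := by exact_mod_cast hN1'
  have hNl : (N : ℝ) ≤ 2 * l := by
    have := (Nat.ceil_lt_add_one (by linarith : 0 ≤ l)).le
    rw [← hN] at this
    linarith
  set Q : ℕ := K * N ^ a with hQ
  have hbig : C₀ * l ^ a ≤ (Q : ℕ) := by
    rw [hQ]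
    push_cast
    calc C₀ * l ^ a ≤ K * l ^ a := by gcongr
      _ ≤ K * (N : ℝ) ^ a := by gcongr
  set R : ℕ := rn A Q N with hR
  have hRY : R ≤ Y * N ^ E := hYE N hN1
  have hRl : (R : ℝ) ≤ Y * 2 ^ E * l ^ E := by
    calc (R : ℝ) ≤ Y * (N : ℝ) ^ E := by exact_mod_cast hRY
      _ ≤ Y * (2 * l) ^ E := by gcongr
      _ = _ := by rw [mul_pow]; ring
  have hR2 : 810 * Real.log d * (R : ℝ) ^ 2 ≤
      810 * Real.log d * (Y * 2 ^ E) ^ 2 * l ^ (2 * E) := by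
    calc 810 * Real.log d * (R : ℝ) ^ 2 ≤ 810 * Real.log d * (Y * 2 ^ E * l ^ E) ^ 2 := by gcongr
      _ = _ := by ring
  have hD1 : (1 : ℝ) ≤ D := by exact_mod_cast hD
  rcases le_or_gt R L with hRL | hRL
  · obtain ⟨Φ', hΦ', herr⟩ := ov_step (A := A) (Q := Q) (N := N) (n := n) hd hr hc hΔ hpath hA
      (by exact_mod_cast hrC.trans hbig) (hJC.trans hbig) (hΔC.trans hbig) hN1 hlN hl4 hLn hRL
      hΦ hΦ1
    refine ⟨_, Φ', ?_, hΦ', ?_, herr⟩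
    · have : 0 < d := by omega
      positivity
    have e1 : (((d : ℝ) ^ (2 * (9 * R ^ 2))) ^ 9) ^ 5 =
        Real.exp (810 * Real.log d * (R : ℝ) ^ 2) := by
      rw [← pow_mul, ← pow_mul, ← Real.exp_log hd0, ← Real.exp_nat_mul, Real.log_exp]
      congr 1
      push_cast
      ring
    push_cast
    rw [e1]
    gcongr
  · have hpos : (0 : ℝ) ≤ (n : ℝ) ^ (-c) := Real.rpow_nonneg (Nat.cast_nonneg n) _
    obtain ⟨_, _, _, Ψt, _, _, _, _, hgs, hx, hy⟩ := hpath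
    have hx1 : ‖x‖ = 1 := by rw [← hx]; exact (hgs 0 ⟨le_rfl, zero_le_one⟩).norm_eq
    have hy1 : ‖y‖ = 1 := by rw [← hy]; exact (hgs 1 ⟨zero_le_one, le_rfl⟩).norm_eq
    refine ⟨d ^ (2 * L ^ 2), y, ?_, isPEPS_exact (by omega) y, ?_, ?_, ?_⟩
    · have : 0 < d := by omega
      positivity
    · have hLR : (L : ℝ) ≤ R := by exact_mod_cast hRL.le
      have e1 : (d : ℝ) ^ (2 * L ^ 2) = Real.exp (2 * Real.log d * (L : ℝ) ^ 2) := by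
        rw [← Real.exp_log hd0, ← Real.exp_nat_mul, Real.log_exp]
        congr 1
        push_cast
        ring
      push_cast
      rw [e1]
      calc Real.exp (2 * Real.log d * (L : ℝ) ^ 2)
          ≤ Real.exp (810 * Real.log d * (Y * 2 ^ E) ^ 2 * l ^ (2 * E)) := by
            apply Real.exp_le_exp.mpr
            refine le_trans ?_ hR2
            have : 2 * Real.log d ≤ 810 * Real.log d := by linarith
            calc 2 * Real.log d * (L : ℝ) ^ 2 ≤ 810 * Real.log d * (L : ℝ) ^ 2 := by gcongr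
              _ ≤ _ := by gcongr
        _ ≤ D * Real.exp (810 * Real.log d * (Y * 2 ^ E) ^ 2 * l ^ (2 * E)) :=
            le_mul_of_one_le_left (Real.exp_pos _).le hD1
    · rw [hy1]
      linarith
    · have h1 : ‖⟪x, Φ⟫_ℂ‖ ≤ 1 := by
        refine (norm_inner_le_norm _ _).trans ?_
        rw [hx1, hΦ1, one_mul]
      have h2 : ‖⟪y, y⟫_ℂ‖ = 1 := by
        rw [inner_self_eq_norm_sq_to_K, hy1]
        simp
      rw [h2]
      linarith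

end Pool.Agent.FFG.A1
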