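import Pool.Agent.FFG.HE.CondOne
import Pool.Agent.FFG.HE.VarP
import Pool.Agent.FFG.A1.Plain

/-!
# The sum of the conditional entropies is at most the two-sided sum
-/

open Finset
open scoped InnerProductSpace

set_option autoImplicit false
set_option linter.unusedSectionVars false
set_option linter.unusedVariables false

namespace Pool.Agent.FFG.A1

open Pool.Agent.PEPS953 Pool.Agent.FFG Pool.Agent.FFG.HE Pool.Agent.FFG.HPlain Pool.Agent.FFG.APlain

open Pool.Agent.FFG.EPlain (glue rdm rdm_isHermitian boxAt IsDecomp condSum entropy SmallCondSum)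

variable {d L : ℕ} [NeZero L]

/-- The projection on `Ψ`. -/
noncomputable def pr (Ψ : Hil d L) : Matrix (Conf d L) (Conf d L) ℂ :=
  Matrix.vecMulVec Ψ.ofLp (star Ψ.ofLp)

open scoped ComplexOrder in
lemma pr_state {Ψ : Hil d L} (hΨ : ‖Ψ‖ = 1) : IsState (pr Ψ) := by
  refine ⟨?_, ?_⟩
  · exact Matrix.posSemidef_vecMulVec_self_star _
  · unfold pr
    rw [Matrix.trace_vecMulVec]
    have h2 : (⟪Ψ, Ψ⟫_ℂ) = Ψ.ofLp ⬝ᵥ star Ψ.ofLp := by
      rw [PiLp.inner_apply]
      rfl
    rw [← h2, inner_self_eq_norm_sq_to_K, hΨ]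
    simp

lemma red_pr (Ψ : Hil d L) (X : Finset (Site L)) : red (pr Ψ) X = rdm Ψ.ofLp X := by
  ext a b
  unfold red rdm pr
  refine sum_congr rfl fun w _ => ?_
  rw [Matrix.vecMulVec_apply]
  rfl

lemma ent_congr {n : Type} [Fintype n] [DecidableEq n] {ρ σ : Matrix n n ℂ} (h : ρ = σ)
    (hρ : ρ.IsHermitian) (hσ : σ.IsHermitian) : ent hρ = ent hσ := by
  subst h
  rfl

lemma ment_pr {Ψ : Hil d L} (h : (pr Ψ).IsHermitian) (X : Finset (Site L)) :
    ment h X = entropy Ψ.ofLp X := by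
  unfold ment
  rw [ent_congr (red_pr Ψ X) _ (rdm_isHermitian Ψ.ofLp X)]
  rfl

lemma ent_nonneg {n : Type} [Fintype n] [DecidableEq n] {ρ : Matrix n n ℂ} (h : IsState ρ) :
    0 ≤ ent h.herm := by
  have h0 : ∀ i, 0 ≤ h.herm.eigenvalues i := fun i => h.pos.eigenvalues_nonneg i
  have hs : ∑ i, h.herm.eigenvalues i = 1 := by
    have h1 := h.herm.trace_eq_sum_eigenvalues
    rw [h.tr] at h1
    have h2 : (((∑ i, h.herm.eigenvalues i : ℝ)) : ℂ) = 1 := by
      rw [h1]; push_cast; rfl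
    exact_mod_cast h2
  refine sum_nonneg fun i _ => Real.negMulLog_nonneg (h0 i) ?_
  rw [← hs]
  exact single_le_sum (f := fun i => h.herm.eigenvalues i) (fun j _ => h0 j) (mem_univ i)

/-- The sum of the conditional entropies in one order is at most the sum of those in both
orders. -/
theorem condSum_le (hd : 0 < d) {Ψ : Hil d L} (hΨ : ‖Ψ‖ = 1) {m : ℕ}
    {A B D : ℕ → Finset (Site L)}
    (hA : ∀ i < m, ∀ j < m, i ≠ j → Disjoint (A i) (A j)) (hcov : ∀ v, ∃ j < m, v ∈ A j)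
    (hD : ∀ j < m, ∀ v ∈ D j, ∃ i, j < i ∧ i < m ∧ v ∈ A i) :
    condSum Ψ.ofLp m A B ≤ ∑ j ∈ range m, axiomOne Ψ.ofLp (A j) (B j) (D j) := by
  have h1 := ent_le_msum (pr_state hΨ) (A := fun j => A (m - 1 - j)) (B := fun j => D (m - 1 - j))
    (m := m) hd
    (fun i hi j hj hij => hA _ (by omega) _ (by omega) (by omega))
    (by
      intro j hj v hv
      obtain ⟨i, hi1, hi2, hi3⟩ := hD (m - 1 - j) (by omega) v hv
      refine ⟨m - 1 - i, by omega, ?_⟩
      have : m - 1 - (m - 1 - i) = i := by omega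
      rw [this]
      exact hi3)
    (by
      intro v
      obtain ⟨j, hj, hv⟩ := hcov v
      refine ⟨m - 1 - j, by omega, ?_⟩
      have : m - 1 - (m - 1 - j) = j := by omega
      rw [this]
      exact hv)
  have h2 := ent_nonneg (pr_state hΨ)
  have h3 : msum (pr_state hΨ).herm m (fun j => A (m - 1 - j)) (fun j => D (m - 1 - j)) =
      ∑ j ∈ range m, (entropy Ψ.ofLp (A j ∪ D j) - entropy Ψ.ofLp (D j)) := by
    unfold msum
    rw [← Finset.sum_range_reflect (fun j => entropy Ψ.ofLp (A j ∪ D j) - entropy Ψ.ofLp (D j))]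
    refine sum_congr rfl fun j _ => ?_
    rw [ment_pr, ment_pr]
  rw [h3] at h1
  unfold condSum
  simp only [axiomOne, sum_add_distrib]
  linarith

/-- The entropy of a set of sites contained in a box is at most `R ^ 2 log d`. -/
lemma entropy_le (hd : 0 < d) {Ψ : Hil d L} (hΨ : ‖Ψ‖ = 1) (X : Finset (Site L)) :
    entropy Ψ.ofLp X ≤ #X * Real.log d := by
  have h := rdm_state hΨ X
  have h1 := ent_le h (Matrix.isHermitian_zero (n := X → Fin d) (α := ℂ)) 0
    (Real.log (Fintype.card (X → Fin d))) (by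
      have hc : (0 : ℝ) < Fintype.card (X → Fin d) := by
        haveI : Nonempty (X → Fin d) := ⟨fun _ => ⟨0, hd⟩⟩
        exact_mod_cast Fintype.card_pos
      rw [Real.exp_log hc]
      simp)
  have h2 : ent h.herm = entropy Ψ.ofLp X := rfl
  rw [h2] at h1
  refine h1.trans ?_
  rw [zero_mul, zero_add, Fintype.card_fun, Fintype.card_fin, Fintype.card_coe, Nat.cast_pow,
    Real.log_pow]

lemma entropy_nonneg {Ψ : Hil d L} (hΨ : ‖Ψ‖ = 1) (X : Finset (Site L)) :
    0 ≤ entropy Ψ.ofLp X := ent_nonneg (rdm_state hΨ X)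

end Pool.Agent.FFG.A1
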